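import Pool.Agent.W555.KS.Defs2

/-!
# Project KS, part DD: final assembly for the inclusion of shifted complexes
-/

set_option autoImplicit false

namespace Pool.Agent.W689.KS

open Finset MvPolynomial
open Pool.Agent.W555.KS

/-- a nonzero polynomial over an infinite field does not vanish somewhere -/
lemma exists_eval_ne {σ k : Type} [Finite σ] [Field k] [Infinite k] (F : MvPolynomial σ k)
    (hF : F ≠ 0) : ∃ g : σ → k, eval g F ≠ 0 := by
  by_contra hcon
  push Not at hcon
  apply hF
  apply MvPolynomial.funext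
  intro g
  rw [hcon g, map_zero]

lemma srI_ne_top {n : ℕ} {k : Type} [Field k] (L : Finset (Finset (Fin n))) (h : ∅ ∈ L)
    (c : k) (hc : c ≠ 0) : (C c : MvPolynomial (Fin n) k) ∉ srI k L := by
  intro hmem
  have hle : srI k L ≤ RingHom.ker (eval (fun _ : Fin n => (0 : k))) := by
    unfold srI
    rw [Ideal.span_le]
    rintro p ⟨σ, hσ, rfl⟩
    have hne : σ.Nonempty := by
      rw [nonempty_iff_ne_empty]
      rintro rfl
      exact hσ h
    obtain ⟨v, hv⟩ := hne
    show _ ∈ RingHom.ker _
    rw [RingHom.mem_ker, map_prod]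
    apply prod_eq_zero hv
    simp
  have := hle hmem
  rw [RingHom.mem_ker, eval_C] at this
  exact hc this

/-- exponent vectors of a fixed degree form a finite set -/
lemma finite_degree (n j : ℕ) : {m : Fin n →₀ ℕ | m.degree = j}.Finite := by
  have h : {m : Fin n →₀ ℕ | m.degree = j} ⊆
      Set.Iic (Finsupp.equivFunOnFinite.symm (fun _ : Fin n => j)) := by
    intro m hm
    rw [Set.mem_ofPred_eq] at hm
    rw [Set.mem_Iic]
    intro i
    show m i ≤ j
    rw [← hm]
    exact Finsupp.le_degree i m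
  exact (Set.finite_Iic _).subset h

open Classical in
theorem card_faces (hsupp : StSupp) (hgc : StGCnt) (n d j : ℕ) (hj : j ≤ d) (hdn : d < n) :
    cA n d j ≤ ((cyc n d).filter (fun σ => σ.card = j)).card := by
  refine (hgc n d j).trans ?_
  rw [← Set.ncard_coe_finset]
  have himg : ∀ S : Finset ℕ, S ⊆ range n →
      (univ.filter (fun i : Fin n => (i : ℕ) ∈ S)).image (fun i : Fin n => (i : ℕ)) = S := by
    intro S hS
    ext x
    simp only [mem_image, mem_filter, mem_univ, true_and]
    constructor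
    · rintro ⟨i, hi, rfl⟩; exact hi
    · intro hx
      exact ⟨⟨x, mem_range.1 (hS hx)⟩, hx, rfl⟩
  have hcard : ∀ S : Finset ℕ, S ⊆ range n →
      (univ.filter (fun i : Fin n => (i : ℕ) ∈ S)).card = S.card := by
    intro S hS
    conv_rhs => rw [← himg S hS]
    rw [card_image_of_injective _ Fin.val_injective]
  apply Set.ncard_le_ncard_of_injOn (fun S : Finset ℕ => univ.filter (fun i : Fin n => (i : ℕ) ∈ S))
  · rintro S ⟨hS, hc, hG⟩
    have hc' := hcard S hS
    have hG' : Gale n d ((univ.filter (fun i : Fin n => (i : ℕ) ∈ S)).image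
        (fun i : Fin n => (i : ℕ))) := by rw [himg S hS]; exact hG
    show _ ∈ ((cyc n d).filter (fun σ => σ.card = j) : Finset _)
    rw [mem_filter]
    refine ⟨?_, by rw [hc', hc]⟩
    unfold cyc
    rw [mem_filter]
    refine ⟨mem_univ _, ?_, hsupp n d _ hG'⟩
    intro hu
    have := congrArg Finset.card hu
    rw [hc', hc, card_univ, Fintype.card_fin] at this
    omega
  · rintro S ⟨hS, _, _⟩ S' ⟨hS', _, _⟩ heq
    simp only at heq
    rw [← himg S hS, ← himg S' hS', heq]

open Classical in
theorem dd (hg1 : StG1) (hg2 : StG2) (hg3 : StG3) (hphi : StPhi) (hcyc : StCyc)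
    (hsupp : StSupp) (hgc : StGCnt) (hgn : StGNum) : StDD := by
  intro k _ _ n d L hd hdn hL hemb S hS
  obtain ⟨m, hm1, hm2, hmS⟩ := hS
  refine ⟨m, ?_, hm2, hmS⟩
  intro hmg
  obtain ⟨hcx, hce⟩ := hcyc n d hd hdn
  have hal : Allowed n d m := by
    by_contra hna
    exact hm1 (hg1 k n d L hdn hL hemb m hna)
  have hidx := hphi n m hm2
  obtain ⟨F1, hF1, hF1g⟩ := hmg
  have : Infinite k := CharZero.infinite k
  -- the determinant polynomial
  set D : MvPolynomial (Fin n × Fin n) k := (Matrix.mvPolynomialX (Fin n) (Fin n) k).det with hD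
  have hD0 : D ≠ 0 := Matrix.det_mvPolynomialX_ne_zero (Fin n) k
  have hDg : ∀ g : Fin n × Fin n → k, eval g D = (Matrix.of (fun i j => g (i, j))).det := by
    intro g
    rw [hD, RingHom.map_det]
    congr 1
    ext i j
    simp [Matrix.mvPolynomialX]
  rcases Nat.eq_zero_or_pos m.degree with h0 | hpos
  · -- degree zero
    have hm0 : m = 0 := by
      rwa [Finsupp.degree_eq_zero_iff] at h0
    subst hm0
    obtain ⟨g, hg⟩ := exists_eval_ne (F1 * D) (mul_ne_zero hF1 hD0)
    rw [map_mul] at hg
    have hg1' := left_ne_zero_of_mul hg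
    have hg2' := right_ne_zero_of_mul hg
    rw [hDg] at hg2'
    obtain ⟨f, hf, hf0, hfs⟩ := hF1g g hg2' hg1'
    have hsup : ∀ m' : Fin n →₀ ℕ, m' ≠ 0 → coeff m' f = 0 := by
      intro m' hm'
      by_contra hc
      have := hfs m' (mem_support_iff.2 hc) hm'
      rcases this with h | ⟨h, _⟩
      · simp at h
      · apply hm'
        rw [map_zero] at h
        rwa [Finsupp.degree_eq_zero_iff] at h
    have hfC : f = C (coeff 0 f) := by
      ext m'
      rw [coeff_C]
      split_ifs with h
      · rw [h]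
      · exact hsup m' (fun e => h e.symm)
    have hmem : (C (coeff 0 f) : MvPolynomial (Fin n) k) ∈ srI k (cyc n d) := by
      have h1 : subst g f ∈ srI k (cyc n d) := hf
      rw [hfC] at h1
      unfold Pool.Agent.W555.KS.subst at h1
      rw [aeval_C] at h1
      simpa using h1
    exact srI_ne_top (cyc n d) hcx.1 _ hf0 hmem
  · -- positive degree
    obtain ⟨j, hj⟩ : ∃ j, m.degree = j + 1 := ⟨m.degree - 1, by omega⟩
    have hsum : ∀ s : Finset (Fin n), ∑ i ∈ s, m i ≤ m.degree := by
      intro s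
      rw [Finsupp.degree_eq_sum]
      exact sum_le_sum_of_subset (subset_univ s)
    have hjd : j < d := by
      by_contra hjd
      have hall : ∑ i ∈ (univ : Finset (Fin n)).filter (fun i : Fin n => (i : ℕ) + d < n), m i =
          m.degree := by
        rw [Finsupp.degree_eq_sum]
        apply sum_subset (filter_subset _ _)
        intro i _ hi
        by_contra hmi
        apply hi
        rw [mem_filter]
        refine ⟨mem_univ _, ?_⟩
        have := hidx i (Finsupp.mem_support_iff.2 hmi)
        omega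
      have h2 := hal
      unfold Allowed at h2
      rw [hall] at h2
      have h3 := hsum ((univ : Finset (Fin n)).filter (fun i : Fin n => (i : ℕ) + d + 1 = n))
      omega
    -- polynomials for the non-allowed monomials
    have hfin : {m' : Fin n →₀ ℕ | m'.degree = j + 1}.Finite := finite_degree n (j + 1)
    have hna : ∀ m' : Fin n →₀ ℕ, ¬ Allowed n d m' → ∃ F : MvPolynomial (Fin n × Fin n) k, F ≠ 0 ∧
        ∀ g : Fin n × Fin n → k, (Matrix.of (fun i j => g (i, j))).det ≠ 0 → eval g F ≠ 0 →
          m' ∈ inSet (coordI g (srI k (cyc n d))) :=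
      fun m' h => hg1 k n d (cyc n d) hdn hcx hce m' h
    choose! G hG0 hGg using hna
    set F2 : MvPolynomial (Fin n × Fin n) k :=
      ∏ m' ∈ hfin.toFinset.filter (fun m' => ¬ Allowed n d m'), G m' with hF2
    have hF20 : F2 ≠ 0 := by
      rw [hF2, prod_ne_zero_iff]
      intro m' hm'
      exact hG0 m' (mem_filter.1 hm').2
    obtain ⟨F3, hF30, hF3g⟩ := hg2 k n (j + 1) (cyc n d) hcx
    obtain ⟨g, hg⟩ := exists_eval_ne (F1 * F2 * F3 * D)
      (mul_ne_zero (mul_ne_zero (mul_ne_zero hF1 hF20) hF30) hD0)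
    rw [map_mul, map_mul, map_mul] at hg
    have hgD := right_ne_zero_of_mul hg
    have hg3' := right_ne_zero_of_mul (left_ne_zero_of_mul hg)
    have hg2' := right_ne_zero_of_mul (left_ne_zero_of_mul (left_ne_zero_of_mul hg))
    have hg1' := left_ne_zero_of_mul (left_ne_zero_of_mul (left_ne_zero_of_mul hg))
    rw [hDg] at hgD
    have hmin := hF1g g hgD hg1'
    have hc1 := hF3g g hgD hg3'
    have hnain : ∀ m' : Fin n →₀ ℕ, m'.degree = j + 1 → ¬ Allowed n d m' →
        m' ∈ inSet (coordI g (srI k (cyc n d))) := by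
      intro m' hm' hna'
      apply hGg m' hna' g hgD
      rw [hF2, map_prod, prod_ne_zero_iff] at hg2'
      exact hg2' m' (mem_filter.2 ⟨by simpa using hm', hna'⟩)
    have hAfin : {m' : Fin n →₀ ℕ | m'.degree = j + 1 ∧
        (∀ i ∈ m'.support, (i : ℕ) + (j + 1) ≤ n) ∧ Allowed n d m'}.Finite :=
      hfin.subset (fun m' hm' => hm'.1)
    have hlt : {m' : Fin n →₀ ℕ | m'.degree = j + 1 ∧ (∀ i ∈ m'.support, (i : ℕ) + (j + 1) ≤ n) ∧
        m' ∉ inSet (coordI g (srI k (cyc n d)))}.ncard <
        {m' : Fin n →₀ ℕ | m'.degree = j + 1 ∧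
        (∀ i ∈ m'.support, (i : ℕ) + (j + 1) ≤ n) ∧ Allowed n d m'}.ncard := by
      apply Set.ncard_lt_ncard _ hAfin
      refine ⟨?_, ?_⟩
      · rintro m' ⟨h1, h2, h3⟩
        refine ⟨h1, h2, ?_⟩
        by_contra h4
        exact h3 (hnain m' h1 h4)
      · intro hsub
        have hmem : m ∈ {m' : Fin n →₀ ℕ | m'.degree = j + 1 ∧
            (∀ i ∈ m'.support, (i : ℕ) + (j + 1) ≤ n) ∧ Allowed n d m'} := by
          refine ⟨hj, ?_, hal⟩
          intro i hi
          have := hidx i hi
          omega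
        exact (hsub hmem).2.2 hmin
    have hc3 := hg3 n d j hjd hdn
    have hc4 := hgn n d j hjd hdn
    have hc5 := card_faces hsupp hgc n d (j + 1) hjd hdn
    have hc6 : ((cyc n d).filter (fun σ => σ.card = j + 1)).card ≤
      {m' : Fin n →₀ ℕ | m'.degree = j + 1 ∧ (∀ i ∈ m'.support, (i : ℕ) + (j + 1) ≤ n) ∧
        m' ∉ inSet (coordI g (srI k (cyc n d)))}.ncard := by
      convert hc1
    omega

end Pool.Agent.W689.KS
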